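import Pool.Agent.helper61.CSW.W.SpecW

/-!
# Project csw (MP_70a088_an), row POS: position of the periodic points whose derivatives are bounded below (helper64)
-/

set_option autoImplicit false

open Complex Metric Set Filter Topology MeasureTheory
open YPPS (fd fdd pre TT CV IsCyc rho Exact)
open MPS (BB)
open Pool.Agent.helper98.ILF (juliaSet fatouSet)

noncomputable section

open CSS (SE SV JJ)

namespace YW

theorem POS (hTTE : CSS.TTE_stmt) (hIFC : CSS.IFC_stmt) : POS_stmt := by
  intro f c hc
  obtain ⟨hdiff, -, -, -, -, hadd, -, -, -⟩ := hIFC f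
  have hA4 : (4 : ℝ) ≤ 4 / c + 4 := by
    have : 0 < 4 / c := by positivity
    linarith
  obtain ⟨R, hR1, -, hT⟩ := hTTE f (4 / c + 4) (by linarith)
  refine ⟨R, ?_⟩
  intro k w hk hkw hmlt hder
  by_contra hcon
  rw [not_le] at hcon
  have hkw' : CSS.it f k w = w := hkw
  have hmlt' : ‖deriv (CSS.it f k) w‖ ≤ 2 := hmlt
  have hw0 : 0 < ‖w‖ := by linarith
  have hAm : ∀ m : ℕ, 1 ≤ m → 4 / c + 4 ≤ (4 / c + 4) ^ m := fun m hm => le_self_pow₀ (by linarith) (by omega)
  have key : ∀ n : ℕ, n ≤ k → ∀ j : ℕ, k - n ≤ j → j ≤ k → R < ‖CSS.it f j w‖ := by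
    intro n
    induction n with
    | zero =>
      intro _ j h1 h2
      have h3 : j = k := by omega
      rw [h3, hkw']
      exact hcon
    | succ n ih =>
      intro hn j h1 h2
      rcases Nat.lt_or_ge j (k - n) with h3 | h3
      · have hj : j < k := by omega
        have hz : ∀ i, 1 ≤ i → i ≤ k - j → R < ‖CSS.it f i (CSS.it f j w)‖ := by
          intro i hi1 hi2
          rw [← hadd i j w]
          exact ih (by omega) (i + j) (by omega) (by omega)
        have h4 := hT (k - j) (CSS.it f j w) hz
        rw [← hadd (k - j) j w, show k - j + j = k by omega, hkw'] at h4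
        have hcomp : CSS.it f k = CSS.it f (k - j) ∘ CSS.it f j := by
          funext z
          have h5 := hadd (k - j) j z
          rw [show k - j + j = k by omega] at h5
          exact h5
        have h6 : deriv (CSS.it f k) w = deriv (CSS.it f (k - j)) (CSS.it f j w) * deriv (CSS.it f j) w := by
          rw [hcomp]
          exact deriv_comp w (hdiff (k - j) _) (hdiff j w)
        have h7 : c ≤ ‖deriv (CSS.it f j) w‖ := hder j h2
        have h8 : ‖deriv (CSS.it f (k - j)) (CSS.it f j w)‖ ≤ 2 / c := by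
          rw [le_div_iff₀ hc]
          rw [h6, norm_mul] at hmlt'
          refine le_trans ?_ hmlt'
          exact mul_le_mul_of_nonneg_left h7 (norm_nonneg _)
        have h9 : (4 / c) * ‖w‖ ≤ (4 / c + 4) ^ (k - j) * ‖w‖ := by
          refine mul_le_mul_of_nonneg_right ?_ hw0.le
          have := hAm (k - j) (by omega)
          linarith
        have h10 : (4 / c) * ‖w‖ ≤ ‖CSS.it f j w‖ * (2 / c) := by
          refine h9.trans (h4.trans ?_)
          exact mul_le_mul_of_nonneg_left h8 (norm_nonneg _)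
        have h11 : 4 * ‖w‖ ≤ ‖CSS.it f j w‖ * 2 := by
          have h12 : c * ((4 / c) * ‖w‖) ≤ c * (‖CSS.it f j w‖ * (2 / c)) := mul_le_mul_of_nonneg_left h10 hc.le
          have e1 : c * ((4 / c) * ‖w‖) = 4 * ‖w‖ := by field_simp
          have e2 : c * (‖CSS.it f j w‖ * (2 / c)) = ‖CSS.it f j w‖ * 2 := by field_simp
          rw [e1, e2] at h12
          exact h12
        linarith
      · exact ih (by omega) j h3 h2
  have h4 := hT k w (fun i hi1 hi2 => key k le_rfl i (by omega) hi2)
  rw [hkw'] at h4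
  have h5 : (4 / c + 4) ^ k * ‖w‖ ≤ ‖w‖ * 2 := h4.trans (mul_le_mul_of_nonneg_left hmlt' (norm_nonneg _))
  have h6 : 4 * ‖w‖ ≤ (4 / c + 4) ^ k * ‖w‖ := by
    refine mul_le_mul_of_nonneg_right ?_ hw0.le
    have := hAm k hk
    linarith
  linarith

end YW
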